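import Pool.Agent.MP_c69980_ag.H43.Spec1

/-!
Row Emb: embeddings into the complex numbers.
-/

set_option autoImplicit false

namespace Pool.Agent.MP_c69980_ag.H43

open Cardinal

theorem emb_field (F K L : Type) [Field F] [Field K] [Field L] [IsAlgClosed L] [Algebra F K]
    [Algebra F L] (hF : Countable F) (hL : ℵ₀ < Cardinal.mk L)
    (hK : Cardinal.mk K ≤ Cardinal.mk L) : Nonempty (K →ₐ[F] L) := by
  obtain ⟨s, hs⟩ := exists_isTranscendenceBasis F K
  obtain ⟨t, ht⟩ := exists_isTranscendenceBasis F L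
  have h1 := IsAlgClosed.cardinal_eq_cardinal_transcendence_basis_of_aleph0_lt' _ ht
    Cardinal.mk_le_aleph0 hL
  obtain ⟨e⟩ := (Cardinal.le_def _ _).1 (((Cardinal.mk_set_le s).trans hK).trans h1.le)
  have hy := ht.1.comp e e.injective
  let f : Algebra.adjoin F (Set.range ((↑) : s → K)) →ₐ[F] L :=
    (MvPolynomial.aeval (((↑) : t → L) ∘ e)).comp hs.1.aevalEquiv.symm.toAlgHom
  have hf : Function.Injective f :=
    (algebraicIndependent_iff_injective_aeval.1 hy).comp hs.1.aevalEquiv.symm.injective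
  let _ := f.toRingHom.toAlgebra
  have : IsScalarTower F (Algebra.adjoin F (Set.range ((↑) : s → K))) L :=
    IsScalarTower.of_algebraMap_eq fun x => (f.commutes x).symm
  have : FaithfulSMul (Algebra.adjoin F (Set.range ((↑) : s → K))) L :=
    (faithfulSMul_iff_algebraMap_injective _ _).2 hf
  have := hs.isAlgebraic
  exact ⟨(IsAlgClosed.lift (R := Algebra.adjoin F (Set.range ((↑) : s → K))) (S := K)
    (M := L)).restrictScalars F⟩

theorem sEmb : SEmb := by
  have hC : ℵ₀ < Cardinal.mk ℂ := by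
    rw [Cardinal.mk_complex]
    exact Cardinal.aleph0_lt_continuum
  refine ⟨fun F hF A _ _ _ hA => ?_, fun F hF ψ => ?_⟩
  · obtain ⟨φ⟩ := emb_field F (FractionRing A) ℂ hF hC (by
      rw [Cardinal.mk_complex, FractionRing.cardinalMk]
      exact hA)
    exact ⟨φ.comp (IsScalarTower.toAlgHom F A (FractionRing A)),
      φ.toRingHom.injective.comp (IsFractionRing.injective A (FractionRing A))⟩
  · obtain ⟨φ⟩ := @emb_field F ℂ ℂ _ _ _ _ F.subtype.toAlgebra ψ.toAlgebra hF hC le_rfl
    exact ⟨@AlgHom.toRingHom F ℂ ℂ _ _ _ F.subtype.toAlgebra ψ.toAlgebra φ,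
      fun x => @AlgHom.commutes F ℂ ℂ _ _ _ F.subtype.toAlgebra ψ.toAlgebra φ x⟩

end Pool.Agent.MP_c69980_ag.H43
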