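import Pool.Agent.MP_c69980_ag.H43.Spec3

/-!
Simplicity of the coordinate ring of a chart with respect to invariant derivations.
-/

set_option autoImplicit false

namespace Pool.Agent.MP_c69980_ag.H43

open MvPolynomial H60 Finset

variable {t a M : ℕ} {w : Fin M → Option (Fin t)} {Θ : Pt t a → Fin M → ℂ} {PP : PT M t a}
  {k F : Subfield ℂ} {β : Cht M t} {p₀ : Pt t a}

lemma vs_le (F : Subfield ℂ) (β : Cht M t) (y : Fin M → ℂ) : ∀ u ∈ RA F (co β y), u ∈ FL F y :=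
  RA_le_field (le_FL F y) fun x => rat_FL F y (co_mem β y x)

lemma vs_cnt (h : Countable F) (β : Cht M t) (y : Fin M → ℂ) : Countable (RA F (co β y)) :=
  Set.countable_coe_iff.2 ((Set.countable_coe_iff.1 (FL_countable h y)).mono (vs_le F β y))

/-- A homomorphism of the coordinate ring gives a point, with the same tangent vectors. -/
lemma vs_spec (G : GD w Θ PP k) (hk : k ≤ F) (hβ : Ch w β (Θ p₀))
    (φ : RA F (co β (Θ p₀)) →ₐ[F] ℂ) :
    ∃ q, Ch w β (Θ q) ∧ Set.range (co β (Θ q)) ⊆ Set.range φ ∧ ∀ (D D' : Der) (v : Pt t a),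
      (∀ i, v i ∈ F) → Tan Θ D p₀ v →
      (∀ x y : RA F (co β (Θ p₀)), (y : ℂ) = D x → D' (φ x) = φ y) → Tan Θ D' q v := by
  obtain ⟨q, hq, e⟩ := G.spec hβ (y := fun x => φ ⟨_, gen_mem (co β (Θ p₀)) x⟩) fun P hP h0 => by
    rw [← hP.map_eval hk φ (fun x => ⟨_, gen_mem (co β (Θ p₀)) x⟩) 0 h0.symm, map_zero]
  refine ⟨q, hq, ?_, fun D D' v hv ht hD => (G.tan_iff hq).2 fun x => ?_⟩
  · rintro _ ⟨x, rfl⟩
    exact ⟨_, (congrFun e x).symm⟩
  · have c : Cf F (∑ i, C (v i) * PP β i x) :=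
      Cf.sum _ fun i _ => (cf_C (hv i)).mul ((G.cf β i x).mono hk)
    have e1 : ∀ y : CI M t → ℂ, vf (PP β) v y x = eval y (∑ i, C (v i) * PP β i x) := fun y => by
      simp [vf_eq]
    rw [e, hD ⟨_, gen_mem (co β (Θ p₀)) x⟩ ⟨_, vf_mem (G.cf β) hk hv _ x⟩
      ((G.tan_iff hβ).1 ht x).symm]
    exact (c.map_eval le_rfl φ (fun x => ⟨_, gen_mem (co β (Θ p₀)) x⟩) _ (e1 _)).trans (e1 _).symm

lemma vs_alg {L : Subfield ℂ} {x : ℂ} (h : x ∈ L) : IsAlgebraic L x :=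
  isAlgebraic_algebraMap (⟨x, h⟩ : L)

lemma vs_end (h2 : SInd) {ι : Type} {x : ι → ℂ} {φ : RA F x →ₐ[F] ℂ} {n : ℕ}
    (h : Ind F n (Set.range φ)) (hn : ¬ Ind F (n + 1) (Set.range x)) {I : Ideal (RA F x)}
    (hI : ∀ u ∈ I, φ u = 0) : I = ⊥ := by
  refine (Submodule.eq_bot_iff _).2 fun u hu => by_contra fun e => hn ?_
  exact (h2.gen F _ ι x φ).1 ((h2.hom F _ φ n h).2 u e (hI u hu))

theorem sVs (h1 : SAm) (h2 : SInd) (h3 : SPres) (h4 : SDimt) : SVs := by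
  intro t a M w Θ PP k F p₀ n lam δ G hk hF A β hβ I hI
  refine or_iff_not_imp_right.2 fun hn => ?_
  obtain ⟨φ, D', z, hD⟩ := h1 F F _ (Fin n) δ le_rfl hF (vs_cnt hF β _)
    (fun l => ⟨(A.kill l).pres, (A.kill l).pres,
      ((h3 _ _ _ w Θ PP k F _ p₀ _ G hk (A.tan l)).2.2 (fun i => hk (A.mem l i))
        (A.kill l).pres β hβ).1⟩) I hn fun l => hI _ ⟨l, rfl⟩
  obtain ⟨q, hq, r, ht⟩ := vs_spec G hk hβ φ
  have i1 := h4 _ _ _ w Θ PP k F q n lam D' G A.ind fun l =>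
    ⟨fun c hc => ((hD l).1 c hc).trans (A.kill l c hc),
      ht _ _ _ (fun i => hk (A.mem l i)) (A.tan l) (hD l).2⟩
  have i2 : Ind F n (Set.range (co β (Θ q))) :=
    h2.alg F n _ (i1.mono le_rfl le_rfl fun x hx => vs_alg (FL_chart hq F ▸ rat_FL F _ hx))
  refine vs_end h2 (i2.mono le_rfl le_rfl r) (fun h => A.dim (h.mono le_rfl le_rfl ?_)) z
  rintro _ ⟨x, rfl⟩
  exact co_mem β _ x

theorem sDs (h1 : SAm) (h2 : SInd) (h3 : SPres) (h4 : SLd) : SDs := by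
  intro t a M w Θ PP k F D p₀ g G C β hβ I hI
  refine or_iff_not_imp_right.2 fun hn => ?_
  have P := h3 _ _ _ w Θ PP k F D p₀ g G C.le C.tan
  have PL : Pres D (FL F (Θ p₀)) :=
    P.1 (fun i => le_FL _ _ (C.mem i)) fun x hx => le_FL _ _ (C.pres x hx)
  obtain ⟨φ, D', z, hD⟩ := h1 F (FL F (Θ p₀)) _ Unit (fun _ => D) (le_FL _ _)
    (FL_countable C.cnt _) (vs_cnt C.cnt β _)
    (fun _ => ⟨C.pres, PL, (P.2.2 C.mem C.pres β hβ).1⟩) I hn fun _ => hI _ rfl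
  obtain ⟨e, hD⟩ := hD ()
  obtain ⟨q, hq, r, ht⟩ := vs_spec G C.le hβ φ
  have t0 := G.sub.2.2 (D' ()) p₀ q g g (fun c hc => (e c (le_FL _ _ (C.le hc))).trans (C.kill c hc))
    (C.tan.congr fun x hx => e x (rat_FL _ _ hx)) (ht _ _ _ C.mem C.tan hD)
  rw [sub_self, tan_zero_iff] at t0
  obtain ⟨N, hN⟩ := h2.fin F _ (Set.finite_range (co β (Θ p₀)))
  obtain ⟨n, y, -, hn, hy, iy, -⟩ := h2.max F N _ hN
  have ry : ∀ i, y i ∈ rat (Θ p₀) := fun i => by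
    obtain ⟨x, hx⟩ := hy i
    exact hx ▸ co_mem β _ x
  have i1 := (h4 {D' ()} (FL F (Θ p₀)) F
    (by rintro _ rfl x hx; rw [e x hx]; exact PL x hx) (le_FL _ _)
    (fun x hx h => C.const x hx ((e x hx).symm.trans (h _ rfl))) _ y iy).2
    fun i => rat_FL _ _ (ry i)
  set F₁ := Subfield.closure (F ∪ {c | ∀ D ∈ ({D' ()} : Set Der), D c = 0} : Set ℂ)
  have l1 : F ≤ F₁ := fun _ h => Subfield.subset_closure (Or.inl h)
  have l2 : k ≤ F₁ := C.le.trans l1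
  have s1 : rat (Θ (0 - (p₀ - q))) ⊆ F₁ := (G.sub.2.1 _ _).trans (Subfield.closure_le.2
    (Set.union_subset (Set.union_subset l2 (G.sub.1.trans l2)) fun x hx =>
      Subfield.subset_closure (Or.inr (by rintro _ rfl; exact t0 x hx))))
  have s2 : rat (Θ p₀) ⊆ FL F₁ (Θ q) := by
    have := G.sub.2.1 q (0 - (p₀ - q))
    rw [show q - (0 - (p₀ - q)) = p₀ by abel] at this
    exact this.trans (Subfield.closure_le.2 (Set.union_subset
      (Set.union_subset (l2.trans (le_FL _ _)) (rat_FL _ _)) (s1.trans (le_FL _ _))))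
  have i2 : Ind F₁ n (Set.range (co β (Θ q))) :=
    h2.alg F₁ n _ ⟨y, fun i => vs_alg (FL_chart hq F₁ ▸ s2 (ry i)), i1⟩
  exact vs_end h2 (i2.mono l1 le_rfl r) hn z

end Pool.Agent.MP_c69980_ag.H43
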