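import Pool.Agent.MP_c69980_ag.H43.Spec2

/-!
Finitely many equations define the closure, and subtraction is defined over a countable field.
-/

set_option autoImplicit false

namespace Pool.Agent.MP_c69980_ag.H43

open MvPolynomial H60 Finset Filter Topology

variable {t a M : ℕ} {w : Fin M → Option (Fin t)} {Θ : Pt t a → Fin M → ℂ}

lemma fin_clh (h : Clh w Θ ⊤) : Ev (Clh w Θ) := by
  let S : Set (PR M) := {F | (∃ d, F.IsHomogeneous d) ∧ ∀ p, eval (Θ p) F = 0}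
  obtain ⟨s, s1, s2⟩ := (Submodule.fg_span_iff_fg_span_finset_subset S).1
    (IsNoetherian.noetherian (Ideal.span S))
  refine (Ev.all fun F : s => ev_cf F.1).mono fun k hk y hy H => h y hy fun F d hF _ h0 => ?_
  have : Submodule.span (PR M) S ≤ RingHom.ker (eval y) := by
    rw [s2, Submodule.span_le]
    intro G hG
    obtain ⟨⟨e, he⟩, h1⟩ := s1 hG
    exact H G e he (hk ⟨G, hG⟩) h1
  exact this (Submodule.subset_span ⟨⟨d, hF⟩, h0⟩)

lemma fin_der {ι : Type} {k : Subfield ℂ} {P : MvPolynomial ι ℂ} (h : Cf k P) {D : Der}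
    (hD : Kill k D) {u : ℂ → ι → ℂ} (hu : ∀ i, HasDerivAt (fun s => u s i) (D (u 0 i)) 0) :
    HasDerivAt (fun s => eval (u s) P) (D (eval (u 0) P)) 0 := by
  obtain ⟨P', rfl⟩ := cf_iff.1 h
  clear h
  induction P' using MvPolynomial.induction_on with
  | C c => simpa [hD _ c.2] using hasDerivAt_const (0 : ℂ) (c : ℂ)
  | add p q hp hq =>
    simp only [map_add]
    exact hp.add hq
  | mul_X p i hp =>
    simp only [map_mul, map_X, eval_X, Derivation.leibniz, smul_eq_mul]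
    exact (hp.mul (hu i)).congr_deriv (by ring)

lemma fin_div {D : Der} {f g : ℂ → ℂ} (hf : HasDerivAt f (D (f 0)) 0)
    (hg : HasDerivAt g (D (g 0)) 0) (h0 : g 0 ≠ 0) :
    HasDerivAt (fun s => f s / g s) (D (f 0 / g 0)) 0 := by
  refine (hf.div hg h0).congr_deriv ?_
  rw [Derivation.leibniz_div]
  simp only [smul_eq_mul]
  field_simp

lemma fin_line (hol : Differentiable ℂ Θ) (p v : Pt t a) (c b : Fin M) (hb : Θ p b ≠ 0) :
    HasDerivAt (fun s : ℂ => Θ (p + s • v) c / Θ (p + s • v) b)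
      (fderiv ℂ (fun q => Θ q c / Θ q b) p v) 0 := by
  have d : ∀ c, DifferentiableAt ℂ (fun q => Θ q c) p := fun c => differentiableAt_pi.1 (hol p) c
  have e : DifferentiableAt ℂ (fun q => Θ q c / Θ q b) p := by
    simp only [div_eq_mul_inv]
    exact (d c).mul ((d b).inv hb)
  have l : HasDerivAt (fun s : ℂ => p + s • v) v 0 := by
    simpa using ((hasDerivAt_id (0 : ℂ)).smul_const v).const_add p
  exact e.hasFDerivAt.comp_hasDerivAt_of_eq 0 l (by simp)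

/-- Affine coordinates of a pair of points. -/
noncomputable def finX (Θ : Pt t a → Fin M → ℂ) (b b' : Fin M) (r r' : Pt t a) :
    Fin M ⊕ Fin M → ℂ :=
  Sum.elim (fun i => Θ r i / Θ r b) fun i => Θ r' i / Θ r' b'

lemma fin_key {s : Finset (Fin M → MvPolynomial (Fin M ⊕ Fin M) ℂ)} (hs : SubF Θ s)
    (blk : ∀ p, ∃ b, Θ p b ≠ 0) (p q : Pt t a) :
    ∃ S ∈ s, ∃ b₁ b₂, Θ p b₁ ≠ 0 ∧ Θ q b₂ ≠ 0 ∧
      (∀ b, Θ (p - q) b ≠ 0 → eval (finX Θ b₁ b₂ p q) (S b) ≠ 0) ∧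
      ∀ r r' c b, eval (finX Θ b₁ b₂ r r') (S b) ≠ 0 → Θ (r - r') c / Θ (r - r') b =
        eval (finX Θ b₁ b₂ r r') (S c) / eval (finX Θ b₁ b₂ r r') (S b) := by
  obtain ⟨S, hS, c₀, h0⟩ := hs.2 p q
  obtain ⟨b₁, h1⟩ := blk p
  obtain ⟨b₂, h2⟩ := blk q
  obtain ⟨⟨d, e, hd⟩, hl⟩ := hs.1 S hS
  have X : ∀ r r' c, eval (finX Θ b₁ b₂ r r') (S c) =
      (Θ r b₁)⁻¹ ^ d * (Θ r' b₂)⁻¹ ^ e * eval (Sum.elim (Θ r) (Θ r')) (S c) := fun r r' c => by
    rw [← hd]
    congr 2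
    ext (i | i) <;> simp [finX, div_eq_inv_mul]
  refine ⟨S, hS, b₁, b₂, h1, h2, fun b hb => ?_, fun r r' c b hb => ?_⟩
  · obtain ⟨l, hl⟩ := hl p q
    rw [hl] at h0
    rw [X, hl]
    exact mul_ne_zero (mul_ne_zero (pow_ne_zero _ (inv_ne_zero h1)) (pow_ne_zero _ (inv_ne_zero h2)))
      (mul_ne_zero (left_ne_zero_of_mul h0) hb)
  · obtain ⟨l, hl⟩ := hl r r'
    rw [X, hl, ← mul_assoc] at hb
    rw [X, X, hl, hl, ← mul_assoc, ← mul_assoc _ l, mul_div_mul_left _ _ (left_ne_zero_of_mul hb)]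

lemma fin_sub (h : GA w Θ) : Ev (SubK Θ) := by
  obtain ⟨s, hs⟩ := h.sub
  have blk : ∀ p, ∃ b, Θ p b ≠ 0 := fun p => (h.blk p none).imp fun _ hb => hb.2
  refine ((Ev.all fun x : Fin M × Fin M => ev_mem (Θ 0 x.1 / Θ 0 x.2)).and
    (Ev.all fun x : s × Fin M => ev_cf (x.1.1 x.2))).mono fun k ⟨k1, k2⟩ =>
      ⟨?_, fun p q => ?_, fun D p q v v' hD hp hq c b hb => ?_⟩
  · rintro _ ⟨c, b, rfl⟩
    exact k1 (c, b)
  · rintro _ ⟨c, b, rfl⟩
    by_cases hb : Θ (p - q) b = 0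
    · rw [hb, div_zero]
      exact zero_mem _
    obtain ⟨S, hS, b₁, b₂, -, -, h3, h4⟩ := fin_key hs blk p q
    have m : ∀ c, eval (finX Θ b₁ b₂ p q) (S c) ∈
        Subfield.closure (k ∪ rat (Θ p) ∪ rat (Θ q) : Set ℂ) := fun c =>
      (k2 (⟨S, hS⟩, c)).eval_mem_field
        (fun _ hx => Subfield.subset_closure (Or.inl (Or.inl hx))) (by
          rintro (i | i)
          · exact Subfield.subset_closure (Or.inl (Or.inr ⟨i, b₁, rfl⟩))
          · exact Subfield.subset_closure (Or.inr ⟨i, b₂, rfl⟩))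
    rw [h4 p q c b (h3 b hb)]
    exact div_mem (m c) (m b)
  · obtain ⟨S, hS, b₁, b₂, h1, h2, h3, h4⟩ := fin_key hs blk p q
    let u : ℂ → Fin M ⊕ Fin M → ℂ := fun z => finX Θ b₁ b₂ (p + z • v) (q + z • v')
    have u0 : u 0 = finX Θ b₁ b₂ p q := by simp [u]
    have hu : ∀ i, HasDerivAt (fun z => u z i) (D (u 0 i)) 0 := by
      rw [u0]
      rintro (i | i)
      · exact (fin_line h.hol p v i b₁ h1).congr_deriv (hp i b₁ h1).symm
      · exact (fin_line h.hol q v' i b₂ h2).congr_deriv (hq i b₂ h2).symm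
    have hc := fun c => fin_der (k2 (⟨S, hS⟩, c)) hD hu
    have n0 : eval (u 0) (S b) ≠ 0 := u0 ▸ h3 b hb
    have e1 := fin_div (hc c) (hc b) n0
    have e2 := fin_line h.hol (p - q) (v - v') c b hb
    have e : (fun z : ℂ => Θ (p - q + z • (v - v')) c / Θ (p - q + z • (v - v')) b) =ᶠ[𝓝 0]
        fun z => eval (u z) (S c) / eval (u z) (S b) := by
      filter_upwards [(hc b).continuousAt.eventually_ne n0] with z hz
      rw [← h4 _ _ c b hz]
      have : p + z • v - (q + z • v') = p - q + z • (v - v') := by module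
      rw [this]
    rw [← e2.unique (e1.congr_of_eventuallyEq e) |>.symm, h4 p q c b (h3 b hb), u0]

theorem sFin : SFin := fun _ _ _ _ _ h => ⟨fin_clh h.cl, fin_sub h⟩

end Pool.Agent.MP_c69980_ag.H43
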